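import Pool.Agent.helper62.MS.SpecE

/-!
# MP_07c750, project MS: row EZC
-/

set_option autoImplicit false

open scoped MatrixGroups Topology UpperHalfPlane
open UpperHalfPlane MeasureTheory Filter Set

namespace Pool.Agent.MS

open Pool.Agent.EN (XG MG mkX mkM fl pr Hn)
open Pool.Agent.LL (Sys cyl)

theorem EZC_sys (hXFL : EN.XFL_stmt) (Γ : Subgroup SL(2, ℝ)) (μ : Measure (XG Γ)) (hinv : ∀ t, μ.map (fl Γ t) = μ) :
    Sys μ (fl Γ 1) (fl Γ (-1)) := by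
  obtain ⟨hF, -⟩ := hXFL Γ
  have hc : ∀ t : ℝ, Continuous (fl Γ t) := by
    intro t
    have h1 : Continuous (fun x : XG Γ => ((t, x) : ℝ × XG Γ)) := by fun_prop
    exact hF.cont.comp h1
  refine ⟨⟨(hc 1).measurable, hinv 1⟩, ⟨(hc (-1)).measurable, hinv (-1)⟩, ?_, ?_⟩
  · intro x
    rw [← hF.add, add_neg_cancel, hF.zero]
  · intro x
    rw [← hF.add, neg_add_cancel, hF.zero]

theorem EZC_proof (hLOC : LL.LOC_stmt) (hAFF : AFF_stmt) (hFEW : FEW_stmt) (hCYB : CYB_stmt) (hNCH : NCH_stmt)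
    (hPAR : EN.PAR_stmt) (hXFL : EN.XFL_stmt) (hXTX : EN.XTX_stmt) (hXNB : EN.XNB_stmt) : EZC_stmt := by
  intro Γ μ E hΓ hμ hinv hE hdim a ha δ hδ
  by_cases hm : μ.real (pr Γ ⁻¹' E) ≤ δ
  · refine ⟨0, fun n _ => ⟨∅, ?_, ?_⟩⟩
    · rw [Finset.card_empty, Nat.cast_zero]
      exact (Real.exp_pos _).le
    · exact le_trans (by linarith) measureReal_nonneg
  push Not at hm
  obtain ⟨δ₁, hδ₁, hbox⟩ := hCYB Γ a hΓ ha
  obtain ⟨hcs, ht2, hsc⟩ := hXTX Γ hΓ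
  have hsys := EZC_sys hXFL Γ μ hinv
  obtain ⟨p, P, hP, hcell, -⟩ := hPAR (XG Γ) μ (EN.Ux Γ δ₁) inferInstance (fun x => hXNB Γ δ₁ x hδ₁)
  set ε : ℝ := min (1 / 8) (δ ^ 2 / 7) with hεdef
  have hε : 0 < ε := lt_min (by norm_num) (by positivity)
  have hε8 : ε ≤ 1 / 8 := min_le_left _ _
  have hε7 : 7 * ε ≤ δ ^ 2 := by
    have h1 : ε ≤ δ ^ 2 / 7 := min_le_right _ _
    linarith
  obtain ⟨J, L, hJm, hJi, hJb, hent, hcyl⟩ := hLOC (XG Γ) μ (fl Γ 1) (fl Γ (-1)) p P ε hμ hsys hP hε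
  have hnull := hNCH Γ μ p P J ε E hΓ hμ hinv hP hJm hε hε8 hE hdim hcyl
  have hYm : MeasurableSet {x : XG Γ | J x ≤ 4 * ε} := measurableSet_le hJm measurable_const
  have hmY : μ.real (pr Γ ⁻¹' E) ≤ μ.real {x : XG Γ | J x ≤ 4 * ε} := by
    have h1 : pr Γ ⁻¹' E ⊆ {x : XG Γ | J x ≤ 4 * ε} ∪ ({x | 4 * ε < J x} ∩ pr Γ ⁻¹' E) := by
      intro x hx
      by_cases h : J x ≤ 4 * ε
      · exact Or.inl h
      · exact Or.inr ⟨not_le.1 h, hx⟩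
    have h2 : μ (pr Γ ⁻¹' E) ≤ μ {x : XG Γ | J x ≤ 4 * ε} := by
      calc μ (pr Γ ⁻¹' E) ≤ μ ({x : XG Γ | J x ≤ 4 * ε} ∪ ({x | 4 * ε < J x} ∩ pr Γ ⁻¹' E)) := measure_mono h1
        _ ≤ μ {x : XG Γ | J x ≤ 4 * ε} + μ ({x | 4 * ε < J x} ∩ pr Γ ⁻¹' E) := measure_union_le _ _
        _ = μ {x : XG Γ | J x ≤ 4 * ε} := by rw [hnull, add_zero]
    exact ENNReal.toReal_mono (measure_ne_top _ _) h2
  set y : ℝ := μ.real {x : XG Γ | J x ≤ 4 * ε} with hydef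
  have hy : 0 < y := lt_of_lt_of_le (lt_trans hδ hm) hmY
  have hyμ : 0 < μ {x : XG Γ | J x ≤ 4 * ε} := by
    rw [hydef] at hy
    unfold Measure.real at hy
    exact (ENNReal.toReal_pos_iff.1 hy).1
  have hy1 : y ≤ 1 := by
    rw [hydef]
    exact measureReal_le_one
  have hev := hAFF (XG Γ) μ (fl Γ 1) (fl Γ (-1)) p P J L ε (4 * ε) hμ hsys hP hJm hJi hJb hε (by positivity) hent hcyl
    hyμ ε hε
  obtain ⟨N0, hN0⟩ := eventually_atTop.1 hev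
  refine ⟨max N0 1, fun n hn => ?_⟩
  have hnN : N0 ≤ n := le_trans (le_max_left _ _) hn
  have hn1 : 1 ≤ n := le_trans (le_max_right _ _) hn
  have hH := hN0 n hnN
  have hprob : IsProbabilityMeasure (ProbabilityTheory.cond μ {x : XG Γ | J x ≤ 4 * ε}) :=
    ProbabilityTheory.cond_isProbabilityMeasure hyμ.ne'
  obtain ⟨W, hWc, -, hWm⟩ := hFEW (XG Γ) (ProbabilityTheory.cond μ {x : XG Γ | J x ≤ 4 * ε}) (fl Γ 1) p P n
    (4 * ε + 2 * ε / y + ε) δ hprob hsys.mp.measurable hP hδ hn1 (le_trans hH (le_of_eq (mul_comm _ _)))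
  choose f hf using fun w : Fin n → Fin p => hbox p P hP hcell n w hn1
  refine ⟨W.image f, le_trans (Nat.cast_le.2 Finset.card_image_le) hWc, ?_⟩
  set S : Set (XG Γ) := {x | ∃ w ∈ W, ∀ i : Fin n, P ((fl Γ 1)^[i] x) = w i} with hSdef
  have hSsub : {x : XG Γ | J x ≤ 4 * ε} ∩ S ⊆
      {x | ∃ y ∈ W.image f, ∃ h : SL(2, ℝ), bq a a (a * Real.exp (-n)) h ∧ x = mkX Γ (y * h)} := by
    rintro x ⟨-, w, hw, hx⟩
    obtain ⟨h, hb, hxe⟩ := hf w hx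
    exact ⟨f w, Finset.mem_image_of_mem f hw, h, hb, hxe⟩
  have hcond : (ProbabilityTheory.cond μ {x : XG Γ | J x ≤ 4 * ε}).real S = y⁻¹ * μ.real ({x : XG Γ | J x ≤ 4 * ε} ∩ S) := by
    rw [hydef]
    unfold Measure.real
    rw [ProbabilityTheory.cond_apply hYm, ENNReal.toReal_mul, ENNReal.toReal_inv]
  rw [hcond] at hWm
  have h1 : y * (1 - (4 * ε + 2 * ε / y + ε) / δ) ≤ μ.real ({x : XG Γ | J x ≤ 4 * ε} ∩ S) := by
    have h2 := mul_le_mul_of_nonneg_left hWm hy.le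
    rwa [← mul_assoc, mul_inv_cancel₀ hy.ne', one_mul] at h2
  have h3 : y * (1 - (4 * ε + 2 * ε / y + ε) / δ) = y - (5 * ε * y + 2 * ε) / δ := by
    field_simp
    ring
  have h4 : (5 * ε * y + 2 * ε) / δ ≤ δ := by
    rw [div_le_iff₀ hδ]
    nlinarith [mul_le_mul_of_nonneg_left hy1 hε.le]
  calc μ.real (pr Γ ⁻¹' E) - δ ≤ y - (5 * ε * y + 2 * ε) / δ := by linarith
    _ ≤ μ.real ({x : XG Γ | J x ≤ 4 * ε} ∩ S) := by rw [← h3]; exact h1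
    _ ≤ _ := measureReal_mono hSsub

end Pool.Agent.MS
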